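import Pool.Agent.Helper23.UDefs2
import Pool.Agent.Helper95.UKap

/-!
# Surjectivity of representations of algebras of sequences
-/

open scoped InnerProductSpace Topology
open ContinuousLinearMap Filter

namespace Pool.Agent.Helper23

universe u

variable {H : Type u} [NormedAddCommGroup H] [InnerProductSpace ℂ H] [CompleteSpace H]
variable {K : Type u} [NormedAddCommGroup K] [InnerProductSpace ℂ K] [CompleteSpace K]
variable {A : VonNeumannAlgebra H} {P : Set (ℕ → H →L[ℂ] H)} {ξ : H} {ζ : K}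
  {rep : (ℕ → H →L[ℂ] H) → (K →L[ℂ] K)}

namespace SeqRep


lemma pow_mem (h : SeqRep A P ξ ζ rep) {x : ℕ → H →L[ℂ] H} (hx : x ∈ P) (k : ℕ) :
    (fun n => x n ^ k) ∈ P ∧ rep (fun n => x n ^ k) = rep x ^ k := by
  induction k with
  | zero => simpa using h.one
  | succ k ih =>
    have h1 := h.mul _ ih.1 x hx
    rw [ih.2] at h1
    simpa [pow_succ] using h1

lemma aeval_mem (h : SeqRep A P ξ ζ rep) {x : ℕ → H →L[ℂ] H} (hx : x ∈ P) (p : Polynomial ℂ) :
    (fun n => Polynomial.aeval (x n) p) ∈ P ∧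
      rep (fun n => Polynomial.aeval (x n) p) = Polynomial.aeval (rep x) p := by
  induction p using Polynomial.induction_on' with
  | add p q hp hq =>
    have h1 := h.add _ hp.1 _ hq.1
    rw [hp.2, hq.2] at h1
    simpa using h1
  | monomial k a =>
    have h1 := h.pow_mem hx k
    have h2 := h.smul a _ h1.1
    rw [h1.2] at h2
    simpa [Polynomial.aeval_monomial, Algebra.smul_def] using h2

lemma sub_mem (h : SeqRep A P ξ ζ rep) {x y : ℕ → H →L[ℂ] H} (hx : x ∈ P) (hy : y ∈ P) :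
    (fun n => x n - y n) ∈ P ∧ rep (fun n => x n - y n) = rep x - rep y := by
  have h1 := h.smul (-1) y hy
  have h2 := h.add x hx _ h1.1
  rw [h1.2] at h2
  have e : (fun n => x n + (-1 : ℂ) • y n) = fun n => x n - y n := by
    funext n; rw [neg_one_smul, sub_eq_add_neg]
  rw [e, neg_one_smul, ← sub_eq_add_neg] at h2
  exact h2

end SeqRep

lemma kap2_mem {B : H →L[ℂ] H} (hB : B ∈ A) (hs : star B = B) : kap2 B ∈ A := by
  rw [mem_iff_commutes]
  intro g hg
  have h1 : Commute g B := mem_iff_commutes.1 hB g hg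
  have h2 : Commute g (1 + B * B) := (Commute.one_right g).add_right (h1.mul_right h1)
  obtain ⟨u, hu⟩ := kap_isUnit hs
  have h3 : Commute g (Ring.inverse (1 + B * B)) := by
    rw [← hu, Ring.inverse_unit]
    rw [← hu] at h2
    exact h2.units_inv_right
  have h4 : Commute g (kap2 B) := (h1.mul_right h3).smul_right (2 : ℂ)
  exact h4

lemma kap2_star {G : Type*} [NormedAddCommGroup G] [InnerProductSpace ℂ G]
    [CompleteSpace G] {B : G →L[ℂ] G} (hs : star B = B) : star (kap2 B) = kap2 B := by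
  have h2 : Commute B (1 + B * B) :=
    (Commute.one_right B).add_right ((Commute.refl B).mul_right (Commute.refl B))
  obtain ⟨u, hu⟩ := kap_isUnit hs
  have h3 : Commute B (Ring.inverse (1 + B * B)) := by
    rw [← hu, Ring.inverse_unit]
    rw [← hu] at h2
    exact h2.units_inv_right
  have h4 : star (Ring.inverse (1 + B * B)) = Ring.inverse (1 + B * B) := by
    rw [← Ring.inverse_star, star_add, star_one, star_mul, hs]
  rw [kap2, star_smul, star_mul, h4, hs, ← h3.eq]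
  congr 1
  exact Complex.conj_ofNat 2

theorem SeqRep.kap (h : SeqRep A P ξ ζ rep) {x : ℕ → H →L[ℂ] H} (hx : x ∈ P)
    (hxs : ∀ n, star (x n) = x n) :
    (fun n => kap2 (x n)) ∈ P ∧ rep (fun n => kap2 (x n)) = kap2 (rep x) := by
  obtain ⟨C, hC⟩ := h.bdd x hx
  have hmem : (fun n => kap2 (x n)) ∈ P := by
    refine h.closed _ (fun n => kap2_mem (h.memA x hx n) (hxs n))
      ⟨1, fun n => kap2_norm (hxs n)⟩ fun ε hε => ?_
    obtain ⟨p, hp⟩ := kap2_poly.{u} C (ε := ε / (‖ξ‖ + 1)) (by positivity)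
    refine ⟨_, (h.aeval_mem hx p).1, Eventually.of_forall fun n => ?_⟩
    have h1 := hp H (x n) (hxs n) (hC n)
    have h2 : ε / (‖ξ‖ + 1) * ‖ξ‖ ≤ ε := by
      rw [div_mul_eq_mul_div, div_le_iff₀ (by positivity)]
      nlinarith [norm_nonneg ξ]
    refine ⟨?_, ?_⟩
    · rw [← sub_apply]
      exact (le_of_opNorm_le _ h1 _).trans h2
    · rw [← sub_apply, ← star_sub]
      exact (le_of_opNorm_le _ (by rw [norm_star]; exact h1) _).trans h2
  refine ⟨hmem, ?_⟩
  have hs : star (rep x) = rep x := by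
    rw [← (h.star_mem x hx).2]
    congr 1
    funext n
    exact hxs n
  rw [← sub_eq_zero, ← norm_le_zero_iff]
  refine le_of_forall_pos_le_add fun ε hε => ?_
  obtain ⟨p, hp⟩ := kap2_poly.{u} C (ε := ε / 2) (by positivity)
  have h1 := h.aeval_mem hx p
  have h2 := h.sub_mem hmem h1.1
  have h3 : ‖rep (fun n => kap2 (x n)) - Polynomial.aeval (rep x) p‖ ≤ ε / 2 := by
    rw [← h1.2, ← h2.2]
    exact h.opNorm _ h2.1 _ fun n => hp H (x n) (hxs n) (hC n)
  have h4 := hp K (rep x) hs (h.opNorm x hx C hC)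
  have e : rep (fun n => kap2 (x n)) - kap2 (rep x) =
      (rep (fun n => kap2 (x n)) - Polynomial.aeval (rep x) p) -
        (kap2 (rep x) - Polynomial.aeval (rep x) p) := by abel
  rw [e]
  refine (norm_sub_le _ _).trans ?_
  linarith

/-- the image of a representation of sequences as a star subalgebra -/
noncomputable def SeqRep.alg (h : SeqRep A P ξ ζ rep) : StarSubalgebra ℂ (K →L[ℂ] K) where
  carrier := rep '' P
  mul_mem' := by
    rintro _ _ ⟨x, hx, rfl⟩ ⟨y, hy, rfl⟩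
    exact ⟨_, (h.mul x hx y hy).1, (h.mul x hx y hy).2⟩
  one_mem' := ⟨_, h.one.1, h.one.2⟩
  add_mem' := by
    rintro _ _ ⟨x, hx, rfl⟩ ⟨y, hy, rfl⟩
    exact ⟨_, (h.add x hx y hy).1, (h.add x hx y hy).2⟩
  zero_mem' := ⟨_, (h.smul 0 _ h.one.1).1, by rw [(h.smul 0 _ h.one.1).2, zero_smul]⟩
  algebraMap_mem' := fun c => ⟨_, (h.smul c _ h.one.1).1, by
    rw [(h.smul c _ h.one.1).2, h.one.2, Algebra.algebraMap_eq_smul_one]⟩
  star_mem' := by
    rintro _ ⟨x, hx, rfl⟩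
    exact ⟨_, (h.star_mem x hx).1, (h.star_mem x hx).2⟩

lemma subset_genVN (S : Set (K →L[ℂ] K)) {T : K →L[ℂ] K} (hT : T ∈ S) : T ∈ genVN S := by
  change T ∈ StarSubalgebra.centralizer ℂ
    ((StarSubalgebra.centralizer ℂ S : StarSubalgebra ℂ (K →L[ℂ] K)) : Set (K →L[ℂ] K))
  rw [StarSubalgebra.mem_centralizer_iff]
  intro g hg
  have h1 := (StarSubalgebra.mem_centralizer_iff ℂ).1 hg T hT
  refine ⟨h1.1.symm, ?_⟩
  have h2 := congrArg star h1.2
  rw [star_mul, star_mul, star_star] at h2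
  exact h2

theorem SeqRep.surj_sa (h : SeqRep A P ξ ζ rep)
    (hsep : ∀ T ∈ genVN (rep '' P), T ζ = 0 → T = 0)
    {T : K →L[ℂ] K} (hT : T ∈ genVN (rep '' P)) (hTs : star T = T) (hT1 : ‖T‖ ≤ 1) :
    ∃ x ∈ P, (∀ n, ‖x n‖ ≤ 1) ∧ rep x = T := by
  have hk : ∀ k : ℕ, ∃ x ∈ P, (∀ n, star (x n) = x n) ∧ (∀ n, ‖x n‖ ≤ 1) ∧
      ‖rep x ζ - T ζ‖ < (1 / 2 : ℝ) ^ k := by
    intro k
    obtain ⟨B, hBm, hBs, hB⟩ := kaplansky h.alg hTs hT1 hT ζ (ε := (1 / 2 : ℝ) ^ k)
      (by positivity)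
    obtain ⟨b, hb, rfl⟩ : B ∈ rep '' P := hBm
    have h1 := h.add b hb _ (h.star_mem b hb).1
    have h2 := h.smul (1 / 2 : ℂ) _ h1.1
    rw [h1.2, (h.star_mem b hb).2, hBs, ← two_smul ℂ (rep b), smul_smul] at h2
    have e : (1 / 2 : ℂ) * 2 = 1 := by norm_num
    rw [e, one_smul] at h2
    have hs : ∀ n, star ((1 / 2 : ℂ) • (b n + star (b n))) = (1 / 2 : ℂ) • (b n + star (b n)) := by
      intro n
      rw [star_smul, star_add, star_star, add_comm (star (b n))]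
      congr 1
      simp
    have h3 := h.kap h2.1 hs
    rw [h2.2] at h3
    refine ⟨_, h3.1, fun n => kap2_star (hs n), fun n => kap2_norm (hs n), ?_⟩
    rw [h3.2]
    exact hB
  choose x hxP hxs hx1 hxT using hk
  have hd : ∀ k, ∀ᶠ n in (UU : Filter ℕ), ‖(x k n - x (k + 1) n) ξ‖ < 2 * (1 / 2 : ℝ) ^ k := by
    intro k
    have h1 := h.sub_mem (hxP k) (hxP (k + 1))
    have h2 := h.norm _ h1.1
    rw [h1.2] at h2
    refine h2.eventually_lt_const ?_
    have e : (rep (x k) - rep (x (k + 1))) ζ = (rep (x k) ζ - T ζ) - (rep (x (k + 1)) ζ - T ζ) := by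
      rw [sub_apply]; abel
    rw [e]
    refine (norm_sub_le _ _).trans_lt ?_
    have h3 := hxT k
    have h4 := hxT (k + 1)
    rw [pow_succ] at h4
    have : 0 < (1 / 2 : ℝ) ^ k := by positivity
    linarith
  let Q : ℕ → ℕ → Prop := fun n k => k ≤ n ∧
    ∀ j < k, ‖(x j n - x (j + 1) n) ξ‖ < 2 * (1 / 2 : ℝ) ^ j
  have hQ0 : ∀ n, Q n 0 := fun n => ⟨Nat.zero_le _, fun j hj => absurd hj (Nat.not_lt_zero _)⟩
  have hQU : ∀ k, ∀ᶠ n in (UU : Filter ℕ), Q n k := by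
    intro k
    have h1 : ∀ᶠ n in (UU : Filter ℕ), k ≤ n := by
      have h2 : (UU : Filter ℕ) ≤ atTop := by
        rw [← Nat.cofinite_eq_atTop]
        exact Filter.hyperfilter_le_cofinite
      exact h2 (eventually_ge_atTop k)
    have h3 : ∀ᶠ n in (UU : Filter ℕ), ∀ j ∈ Finset.range k,
        ‖(x j n - x (j + 1) n) ξ‖ < 2 * (1 / 2 : ℝ) ^ j :=
      (Filter.eventually_all_finset _).2 fun j _ => hd j
    filter_upwards [h1, h3] with n hn1 hn3
    exact ⟨hn1, fun j hj => hn3 j (Finset.mem_range.2 hj)⟩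
  classical
  let κ : ℕ → ℕ := fun n => Nat.findGreatest (Q n) n
  have hκ : ∀ n, Q n (κ n) := fun n => Nat.findGreatest_spec (Nat.zero_le n) (hQ0 n)
  have hκ2 : ∀ n k, Q n k → k ≤ κ n := fun n k hk => Nat.le_findGreatest hk.1 hk
  have htel : ∀ n k m, k ≤ m → (∀ j < m, ‖(x j n - x (j + 1) n) ξ‖ < 2 * (1 / 2 : ℝ) ^ j) →
      ‖(x m n - x k n) ξ‖ ≤ 4 * (1 / 2 : ℝ) ^ k - 4 * (1 / 2 : ℝ) ^ m := by
    intro n k m hkm
    induction m, hkm using Nat.le_induction with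
    | base => intro _; simp
    | succ m hm ih =>
      intro hj
      have h1 := ih fun j hj' => hj j (by omega)
      have h2 := hj m (by omega)
      have e : (x (m + 1) n - x k n) ξ = (x m n - x k n) ξ - (x m n - x (m + 1) n) ξ := by
        simp only [sub_apply]; abel
      rw [e]
      refine (norm_sub_le _ _).trans ?_
      rw [pow_succ]
      linarith
  let y : ℕ → H →L[ℂ] H := fun n => x (κ n) n
  have hy1 : ∀ n, ‖y n‖ ≤ 1 := fun n => hx1 _ n
  have hys : ∀ n, star (y n) = y n := fun n => hxs _ n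
  have happ : ∀ k, ∀ᶠ n in (UU : Filter ℕ), ‖(y n - x k n) ξ‖ ≤ 4 * (1 / 2 : ℝ) ^ k := by
    intro k
    filter_upwards [hQU k] with n hn
    have h1 := htel n k (κ n) (hκ2 n k hn) (hκ n).2
    have : 0 < (1 / 2 : ℝ) ^ (κ n) := by positivity
    linarith
  have hyP : y ∈ P := by
    refine h.closed y (fun n => h.memA _ (hxP _) n) ⟨1, hy1⟩ fun ε hε => ?_
    obtain ⟨k, hk⟩ := exists_pow_lt_of_lt_one (show 0 < ε / 4 by positivity)
      (show (1 / 2 : ℝ) < 1 by norm_num)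
    refine ⟨x k, hxP k, ?_⟩
    filter_upwards [happ k] with n hn
    rw [hys n, hxs k n, ← sub_apply]
    have : 4 * (1 / 2 : ℝ) ^ k ≤ ε := by linarith
    exact ⟨hn.trans this, hn.trans this⟩
  refine ⟨y, hyP, hy1, ?_⟩
  have hζ : rep y ζ = T ζ := by
    rw [← sub_eq_zero, ← norm_le_zero_iff]
    refine le_of_forall_pos_le_add fun ε hε => ?_
    obtain ⟨k, hk⟩ := exists_pow_lt_of_lt_one (show 0 < ε / 5 by positivity)
      (show (1 / 2 : ℝ) < 1 by norm_num)
    have h1 := h.sub_mem hyP (hxP k)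
    have h2 := h.norm _ h1.1
    have h3 : ‖rep (fun n => y n - x k n) ζ‖ ≤ 4 * (1 / 2 : ℝ) ^ k :=
      le_of_tendsto h2 (happ k)
    rw [h1.2] at h3
    have e : rep y ζ - T ζ = (rep y - rep (x k)) ζ + (rep (x k) ζ - T ζ) := by
      rw [sub_apply]; abel
    rw [e]
    refine (norm_add_le _ _).trans ?_
    have := hxT k
    linarith
  have h5 : rep y - T ∈ genVN (rep '' P) := _root_.sub_mem (subset_genVN _ ⟨y, hyP, rfl⟩) hT
  have h6 := hsep _ h5 (by rw [sub_apply, hζ, sub_self])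
  exact sub_eq_zero.1 h6

theorem SeqRep.surj (h : SeqRep A P ξ ζ rep)
    (hsep : ∀ T ∈ genVN (rep '' P), T ζ = 0 → T = 0)
    {T : K →L[ℂ] K} (hT : T ∈ genVN (rep '' P)) :
    ∃ x ∈ P, (∀ n, ‖x n‖ ≤ 2 * ‖T‖) ∧ rep x = T := by
  by_cases h0 : ‖T‖ = 0
  · have h1 := h.smul 0 _ h.one.1
    refine ⟨_, h1.1, fun n => ?_, ?_⟩
    · rw [h0, zero_smul, norm_zero, mul_zero]
    · rw [h1.2, zero_smul]
      exact (norm_eq_zero.1 h0).symm
  have hpos : 0 < ‖T‖ := lt_of_le_of_ne (norm_nonneg _) (Ne.symm h0)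
  have hTst : star T ∈ genVN (rep '' P) := StarMemClass.star_mem hT
  let T1 : K →L[ℂ] K := ((1 / (2 * ‖T‖) : ℝ) : ℂ) • (T + star T)
  let T2 : K →L[ℂ] K := (-Complex.I * ((1 / (2 * ‖T‖) : ℝ) : ℂ)) • (T - star T)
  have hT1m : T1 ∈ genVN (rep '' P) := smul_mem' _ (add_mem hT hTst)
  have hT2m : T2 ∈ genVN (rep '' P) := smul_mem' _ (_root_.sub_mem hT hTst)
  have hT1s : star T1 = T1 := by
    change star (((1 / (2 * ‖T‖) : ℝ) : ℂ) • (T + star T)) = _
    rw [star_smul, star_add, star_star, add_comm (star T)]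
    congr 1
    exact Complex.conj_ofReal _
  have hT2s : star T2 = T2 := by
    change star ((-Complex.I * ((1 / (2 * ‖T‖) : ℝ) : ℂ)) • (T - star T)) = _
    rw [star_smul, star_sub, star_star, ← neg_sub T (star T), smul_neg, ← neg_smul]
    congr 1
    have e : star (-Complex.I * ((1 / (2 * ‖T‖) : ℝ) : ℂ)) =
        Complex.I * ((1 / (2 * ‖T‖) : ℝ) : ℂ) := by
      rw [star_mul, star_neg]
      change (starRingEnd ℂ) _ * -(starRingEnd ℂ) Complex.I = _
      rw [Complex.conj_ofReal, Complex.conj_I]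
      ring
    rw [e]
    ring
  have hn1 : ‖T1‖ ≤ 1 := by
    change ‖((1 / (2 * ‖T‖) : ℝ) : ℂ) • (T + star T)‖ ≤ 1
    rw [norm_smul, Complex.norm_real, Real.norm_of_nonneg (by positivity)]
    have : ‖T + star T‖ ≤ 2 * ‖T‖ := by
      refine (norm_add_le _ _).trans ?_
      rw [norm_star]; linarith
    rw [one_div_mul_eq_div, div_le_one (by positivity)]
    exact this
  have hn2 : ‖T2‖ ≤ 1 := by
    change ‖(-Complex.I * ((1 / (2 * ‖T‖) : ℝ) : ℂ)) • (T - star T)‖ ≤ 1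
    rw [norm_smul, norm_mul, norm_neg, Complex.norm_I, one_mul, Complex.norm_real,
      Real.norm_of_nonneg (by positivity)]
    have : ‖T - star T‖ ≤ 2 * ‖T‖ := by
      refine (norm_sub_le _ _).trans ?_
      rw [norm_star]; linarith
    rw [one_div_mul_eq_div, div_le_one (by positivity)]
    exact this
  obtain ⟨x1, hx1, hb1, hr1⟩ := h.surj_sa hsep hT1m hT1s hn1
  obtain ⟨x2, hx2, hb2, hr2⟩ := h.surj_sa hsep hT2m hT2s hn2
  have h1 := h.smul ((‖T‖ : ℝ) : ℂ) x1 hx1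
  have h2 := h.smul (Complex.I * ((‖T‖ : ℝ) : ℂ)) x2 hx2
  have h3 := h.add _ h1.1 _ h2.1
  refine ⟨_, h3.1, fun n => ?_, ?_⟩
  · refine (norm_add_le _ _).trans ?_
    rw [norm_smul, norm_smul, norm_mul, Complex.norm_I, one_mul, Complex.norm_real, norm_norm]
    have := hb1 n
    have := hb2 n
    nlinarith
  · rw [h3.2, h1.2, h2.2, hr1, hr2]
    change ((‖T‖ : ℝ) : ℂ) • (((1 / (2 * ‖T‖) : ℝ) : ℂ) • (T + star T)) +
      (Complex.I * ((‖T‖ : ℝ) : ℂ)) • ((-Complex.I * ((1 / (2 * ‖T‖) : ℝ) : ℂ)) • (T - star T)) = T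
    rw [smul_smul, smul_smul]
    have hne : ((‖T‖ : ℝ) : ℂ) ≠ 0 := by exact_mod_cast h0
    have e1 : ((‖T‖ : ℝ) : ℂ) * ((1 / (2 * ‖T‖) : ℝ) : ℂ) = 1 / 2 := by
      push_cast
      field_simp
    have e2 : (Complex.I * ((‖T‖ : ℝ) : ℂ)) * (-Complex.I * ((1 / (2 * ‖T‖) : ℝ) : ℂ)) = 1 / 2 := by
      have : (Complex.I * ((‖T‖ : ℝ) : ℂ)) * (-Complex.I * ((1 / (2 * ‖T‖) : ℝ) : ℂ)) =
          -(Complex.I * Complex.I) * (((‖T‖ : ℝ) : ℂ) * ((1 / (2 * ‖T‖) : ℝ) : ℂ)) := by ring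
      rw [this, e1, Complex.I_mul_I]
      norm_num
    rw [e1, e2, ← smul_add]
    have e3 : T + star T + (T - star T) = (2 : ℂ) • T := by
      rw [two_smul]; abel
    rw [e3, smul_smul]
    norm_num

end Pool.Agent.Helper23
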