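import Pool.Agent.Helper4.PU.U10

/-!
# Compression of the ultrapower to the original Hilbert space
-/

open scoped InnerProductSpace Topology BoundedContinuousFunction
open ContinuousLinearMap Filter

namespace Pool.Agent.Helper23

universe u

variable {H : Type u} [NormedAddCommGroup H] [InnerProductSpace ℂ H] [CompleteSpace H]
variable {K : Type u} [NormedAddCommGroup K] [InnerProductSpace ℂ K] [CompleteSpace K]
variable {M N : VonNeumannAlgebra H} {ξ : H} {E : (H →L[ℂ] H) → (H →L[ℂ] H)}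

section aux

set_option linter.unusedSectionVars false

/-- weak convergence on dense sets of vectors and boundedness -/
lemma U11.weak_of_dense {ι : Type*} {F : Filter ι} {x : ι → H →L[ℂ] H} {C : ℝ} (hC : ∀ i, ‖x i‖ ≤ C)
    (y : H →L[ℂ] H) {D : Set H} (hD : Dense D)
    (h : ∀ v ∈ D, ∀ w ∈ D, Tendsto (fun i => ⟪v, x i w⟫_ℂ) F (𝓝 ⟪v, y w⟫_ℂ)) (v w : H) :
    Tendsto (fun i => ⟪v, x i w⟫_ℂ) F (𝓝 ⟪v, y w⟫_ℂ) := by
  rcases F.eq_or_neBot with hbot | hne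
  · rw [hbot]; exact Filter.tendsto_bot
  have hC0 : 0 ≤ C := by
    obtain ⟨i⟩ : Nonempty ι := Filter.nonempty_of_neBot F
    exact (norm_nonneg _).trans (hC i)
  -- first extend in `w`
  have h1 : ∀ v ∈ D, ∀ w : H, Tendsto (fun i => ⟪v, x i w⟫_ℂ) F (𝓝 ⟪v, y w⟫_ℂ) := by
    intro v hv w
    rw [Metric.tendsto_nhds]
    intro ε hε
    obtain ⟨w', hw'm, hw'⟩ := Metric.dense_iff.1 hD w (ε / (3 * ((‖v‖ + 1) * (C + ‖y‖ + 1))))
      (by positivity)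
    rw [Metric.mem_ball, dist_eq_norm, norm_sub_rev] at hw'm
    filter_upwards [(Metric.tendsto_nhds.1 (h v hv w' hw')) (ε / 3) (by positivity)] with i hi
    rw [dist_eq_norm] at hi ⊢
    have e1 : ⟪v, x i w⟫_ℂ - ⟪v, y w⟫_ℂ = ⟪v, x i (w - w')⟫_ℂ - ⟪v, y (w - w')⟫_ℂ +
        (⟪v, x i w'⟫_ℂ - ⟪v, y w'⟫_ℂ) := by
      rw [map_sub, map_sub, inner_sub_right, inner_sub_right]; ring
    have hk : ‖v‖ * ((C + ‖y‖) * ‖w - w'‖) ≤ ε / 3 := by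
      have h3 : ‖v‖ * ((C + ‖y‖) * ‖w - w'‖) ≤
          ((‖v‖ + 1) * (C + ‖y‖ + 1)) * (ε / (3 * ((‖v‖ + 1) * (C + ‖y‖ + 1)))) := by
        rw [← mul_assoc]
        refine mul_le_mul (mul_le_mul ?_ ?_ ?_ ?_) hw'm.le (norm_nonneg _) ?_ <;>
          first | positivity | linarith
      refine h3.trans (le_of_eq ?_)
      field_simp
    rw [e1]
    calc ‖⟪v, x i (w - w')⟫_ℂ - ⟪v, y (w - w')⟫_ℂ + (⟪v, x i w'⟫_ℂ - ⟪v, y w'⟫_ℂ)‖
        ≤ ‖⟪v, x i (w - w')⟫_ℂ‖ + ‖⟪v, y (w - w')⟫_ℂ‖ + ‖⟪v, x i w'⟫_ℂ - ⟪v, y w'⟫_ℂ‖ :=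
          (norm_add_le _ _).trans (add_le_add (norm_sub_le _ _) le_rfl)
      _ ≤ ‖v‖ * (C * ‖w - w'‖) + ‖v‖ * (‖y‖ * ‖w - w'‖) + ‖⟪v, x i w'⟫_ℂ - ⟪v, y w'⟫_ℂ‖ := by
          gcongr
          · exact (norm_inner_le_norm _ _).trans (by
              gcongr; exact (x i).le_of_opNorm_le (hC i) _)
          · exact (norm_inner_le_norm _ _).trans (by
              gcongr; exact y.le_opNorm _)
      _ = ‖v‖ * ((C + ‖y‖) * ‖w - w'‖) + ‖⟪v, x i w'⟫_ℂ - ⟪v, y w'⟫_ℂ‖ := by ring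
      _ < ε := by linarith
  rw [Metric.tendsto_nhds]
  intro ε hε
  obtain ⟨v', hv'm, hv'⟩ := Metric.dense_iff.1 hD v (ε / (3 * ((‖w‖ + 1) * (C + ‖y‖ + 1))))
    (by positivity)
  rw [Metric.mem_ball, dist_eq_norm, norm_sub_rev] at hv'm
  filter_upwards [(Metric.tendsto_nhds.1 (h1 v' hv' w)) (ε / 3) (by positivity)] with i hi
  rw [dist_eq_norm] at hi ⊢
  have e1 : ⟪v, x i w⟫_ℂ - ⟪v, y w⟫_ℂ = ⟪v - v', x i w⟫_ℂ - ⟪v - v', y w⟫_ℂ +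
      (⟪v', x i w⟫_ℂ - ⟪v', y w⟫_ℂ) := by
    rw [inner_sub_left, inner_sub_left]; ring
  have hk : ‖v - v'‖ * ((C + ‖y‖) * ‖w‖) ≤ ε / 3 := by
    have h3 : ‖v - v'‖ * ((C + ‖y‖) * ‖w‖) ≤
        (ε / (3 * ((‖w‖ + 1) * (C + ‖y‖ + 1)))) * ((C + ‖y‖ + 1) * (‖w‖ + 1)) := by
      refine mul_le_mul hv'm.le (mul_le_mul ?_ ?_ ?_ ?_) ?_ ?_ <;>
        first | positivity | linarith
    refine h3.trans (le_of_eq ?_)
    field_simp
  rw [e1]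
  calc ‖⟪v - v', x i w⟫_ℂ - ⟪v - v', y w⟫_ℂ + (⟪v', x i w⟫_ℂ - ⟪v', y w⟫_ℂ)‖
      ≤ ‖⟪v - v', x i w⟫_ℂ‖ + ‖⟪v - v', y w⟫_ℂ‖ + ‖⟪v', x i w⟫_ℂ - ⟪v', y w⟫_ℂ‖ :=
        (norm_add_le _ _).trans (add_le_add (norm_sub_le _ _) le_rfl)
    _ ≤ ‖v - v'‖ * (C * ‖w‖) + ‖v - v'‖ * (‖y‖ * ‖w‖) + ‖⟪v', x i w⟫_ℂ - ⟪v', y w⟫_ℂ‖ := by
        gcongr
        · exact (norm_inner_le_norm _ _).trans (by
            gcongr; exact (x i).le_of_opNorm_le (hC i) _)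
        · exact (norm_inner_le_norm _ _).trans (by
            gcongr; exact y.le_opNorm _)
    _ = ‖v - v'‖ * ((C + ‖y‖) * ‖w‖) + ‖⟪v', x i w⟫_ℂ - ⟪v', y w⟫_ℂ‖ := by ring
    _ < ε := by linarith

/-- operators with equal matrix coefficients are equal -/
lemma U11.op_ext_inner {x y : H →L[ℂ] H} (h : ∀ v w : H, ⟪v, x w⟫_ℂ = ⟪v, y w⟫_ℂ) : x = y := by
  ext w
  exact ext_inner_left ℂ fun v => h v w

/-- a weak limit of operators of `A` belongs to `A` -/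
lemma U11.mem_of_weak {ι : Type*} {F : Filter ι} [F.NeBot] (A : VonNeumannAlgebra H)
    {x : ι → H →L[ℂ] H} (hx : ∀ i, x i ∈ A) {y : H →L[ℂ] H}
    (h : ∀ v w : H, Tendsto (fun i => ⟪v, x i w⟫_ℂ) F (𝓝 ⟪v, y w⟫_ℂ)) : y ∈ A := by
  rw [mem_iff_commutes]
  intro g hg
  refine U11.op_ext_inner fun v w => ?_
  have h1 := h ((star g) v) w
  have h2 := h v (g w)
  have h3 : ∀ i, ⟪(star g) v, x i w⟫_ℂ = ⟪v, x i (g w)⟫_ℂ := fun i => by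
    rw [inner_star_left, commute_apply (hx i) hg]
  simp only [h3] at h1
  have h4 := tendsto_nhds_unique h1 h2
  rw [inner_star_left] at h4
  exact h4

lemma U11.norm_le_of_weak {ι : Type*} {F : Filter ι} [F.NeBot] {x : ι → H} {y : H} {ε : ℝ}
    (h : ∀ v : H, Tendsto (fun i => ⟪v, x i⟫_ℂ) F (𝓝 ⟪v, y⟫_ℂ))
    (hx : ∀ᶠ i in F, ‖x i‖ ≤ ε) : ‖y‖ ≤ ε := by
  have h1 : ‖⟪y, y⟫_ℂ‖ ≤ ‖y‖ * ε := by
    refine le_of_tendsto (h y).norm (hx.mono fun i hi => ?_)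
    exact (norm_inner_le_norm _ _).trans (mul_le_mul_of_nonneg_left hi (norm_nonneg _))
  rw [inner_self_eq_norm_sq_to_K, norm_pow] at h1
  have h2 : ‖((‖y‖ : ℝ) : ℂ)‖ = ‖y‖ := by rw [Complex.norm_real, norm_norm]
  change ‖((‖y‖ : ℝ) : ℂ)‖ ^ 2 ≤ _ at h1
  rw [h2] at h1
  obtain ⟨i, hi⟩ := hx.exists
  have hε : 0 ≤ ε := (norm_nonneg _).trans hi
  by_cases h0 : ‖y‖ = 0
  · rw [h0]; exact hε
  · have : 0 < ‖y‖ := lt_of_le_of_ne (norm_nonneg _) (Ne.symm h0)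
    nlinarith

end aux

lemma U11.const_mem_AppS (S : Setting M N E ξ) {a : H →L[ℂ] H} (ha : a ∈ M) :
    (fun _ : ℕ => a) ∈ AppS M ξ :=
  ⟨AppR_const S.dense_comm ha, AppR_const S.dense_comm (star_mem ha)⟩

lemma U11.AppS_mul {x y : ℕ → H →L[ℂ] H} (hx : x ∈ AppS M ξ) (hy : y ∈ AppS M ξ) :
    (fun n => x n * y n) ∈ AppS M ξ := by
  refine ⟨AppR_mul hx.1 hy.1, ?_⟩
  have h := AppR_mul hy.2 hx.2
  have e : (fun n => star (x n * y n)) = fun n => star (y n) * star (x n) := by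
    funext n; rw [star_mul]
  rw [e]
  exact h

lemma U11.AppS_add {x y : ℕ → H →L[ℂ] H} (hx : x ∈ AppS M ξ) (hy : y ∈ AppS M ξ) :
    (fun n => x n + y n) ∈ AppS M ξ := by
  refine ⟨AppR_add hx.1 hy.1, ?_⟩
  have h := AppR_add hx.2 hy.2
  have e : (fun n => star (x n + y n)) = fun n => star (x n) + star (y n) := by
    funext n; rw [star_add]
  rw [e]
  exact h

lemma U11.AppS_smul (c : ℂ) {x : ℕ → H →L[ℂ] H} (hx : x ∈ AppS M ξ) :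
    (fun n => c • x n) ∈ AppS M ξ := by
  refine ⟨AppR_smul c hx.1, ?_⟩
  have h := AppR_smul (star c) hx.2
  have e : (fun n => star (c • x n)) = fun n => star c • star (x n) := by
    funext n; rw [star_smul]
  rw [e]
  exact h

lemma U11.AppS_sub {x y : ℕ → H →L[ℂ] H} (hx : x ∈ AppS M ξ) (hy : y ∈ AppS M ξ) :
    (fun n => x n - y n) ∈ AppS M ξ := by
  have h := U11.AppS_add hx (U11.AppS_smul (-1 : ℂ) hy)
  have e : (fun n => x n - y n) = fun n => x n + (-1 : ℂ) • y n := by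
    funext n; rw [neg_one_smul, sub_eq_add_neg]
  rw [e]
  exact h

namespace Oc

variable {MT NT : VonNeumannAlgebra K} {ET : (K →L[ℂ] K) → (K →L[ℂ] K)} {ζ : K}
  {rep : (ℕ → H →L[ℂ] H) → (K →L[ℂ] K)} (O : Oc M N E ξ MT NT ET ζ rep)
include O

lemma u11_rep_sub {x y : ℕ → H →L[ℂ] H} (hx : x ∈ AppS M ξ) (hy : y ∈ AppS M ξ) :
    rep (fun n => x n - y n) = rep x - rep y := by
  have h := O.add x hx _ (U11.AppS_smul (-1 : ℂ) hy)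
  rw [O.smul _ y hy, neg_one_smul, ← sub_eq_add_neg] at h
  rw [← h]
  congr 1
  funext n
  rw [neg_one_smul, sub_eq_add_neg]

lemma u11_inner_const (S : Setting M N E ξ) {a b : H →L[ℂ] H} (ha : a ∈ M) (hb : b ∈ M) :
    ⟪rep (fun _ => a) ζ, rep (fun _ => b) ζ⟫_ℂ = ⟪a ξ, b ξ⟫_ℂ :=
  tendsto_nhds_unique (O.inner _ (U11.const_mem_AppS S ha) _ (U11.const_mem_AppS S hb))
    tendsto_const_nhds

lemma u11_exists_iota (S : Setting M N E ξ) : ∃ ι : H →L[ℂ] K,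
    (∀ a ∈ M, ι (a ξ) = rep (fun _ => a) ζ) ∧ ‖ι‖ ≤ 1 := by
  let f : M.toStarSubalgebra →ₗ[ℂ] K :=
    { toFun := fun a => rep (fun _ => (a : H →L[ℂ] H)) ζ
      map_add' := fun a b => by
        have := O.add _ (U11.const_mem_AppS S a.2) _ (U11.const_mem_AppS S b.2)
        exact congrArg (fun T : K →L[ℂ] K => T ζ) this
      map_smul' := fun c a => by
        have := O.smul c _ (U11.const_mem_AppS S a.2)
        exact congrArg (fun T : K →L[ℂ] K => T ζ) this }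
  have hd : DenseRange (evL M ξ) := by
    have : Set.range (evL M ξ) = (orb M ξ : Set H) := by
      ext x
      constructor
      · rintro ⟨a, rfl⟩
        exact ⟨a, a.2, rfl⟩
      · rintro ⟨a, ha, rfl⟩
        exact ⟨⟨a, ha⟩, rfl⟩
    rw [DenseRange, this]
    exact S.cyc
  obtain ⟨ι, hι, hι1⟩ := exists_ext' f (evL M ξ) hd (C := 1) zero_le_one (by
    intro a
    rw [one_mul]
    change ‖rep (fun _ => (a : H →L[ℂ] H)) ζ‖ ≤ ‖(a : H →L[ℂ] H) ξ‖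
    have h1 := O.u11_inner_const S a.2 a.2
    rw [inner_self_eq_norm_sq_to_K, inner_self_eq_norm_sq_to_K] at h1
    have h2 : ‖rep (fun _ => (a : H →L[ℂ] H)) ζ‖ ^ 2 = ‖(a : H →L[ℂ] H) ξ‖ ^ 2 := by
      exact_mod_cast h1
    exact ((pow_left_inj₀ (norm_nonneg _) (norm_nonneg _) two_ne_zero).1 h2).le)
  exact ⟨ι, fun a ha => hι ⟨a, ha⟩, hι1⟩

lemma u11_weak_aux (S : Setting M N E ξ) {ι : H →L[ℂ] K}
    (hι : ∀ a ∈ M, ι (a ξ) = rep (fun _ => a) ζ) {x : ℕ → H →L[ℂ] H} (hx : x ∈ AppS M ξ)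
    (v w : H) :
    Tendsto (fun n => ⟪v, x n w⟫_ℂ) (UU : Filter ℕ)
      (𝓝 ⟪v, ((adjoint ι).comp ((rep x).comp ι)) w⟫_ℂ) := by
  obtain ⟨C, hC⟩ := hx.1.2.1
  refine U11.weak_of_dense hC _ S.cyc ?_ v w
  rintro _ ⟨a, ha, rfl⟩ _ ⟨b, hb, rfl⟩
  have h1 := O.inner _ (U11.const_mem_AppS S ha) _ (U11.AppS_mul hx (U11.const_mem_AppS S hb))
  rw [O.mul x hx _ (U11.const_mem_AppS S hb)] at h1
  have e1 : ⟪a ξ, ((adjoint ι).comp ((rep x).comp ι)) (b ξ)⟫_ℂ =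
      ⟪rep (fun _ => a) ζ, (rep x * rep fun _ => b) ζ⟫_ℂ := by
    change ⟪a ξ, (adjoint ι) (rep x (ι (b ξ)))⟫_ℂ = _
    rw [adjoint_inner_right, hι a ha, hι b hb]
    rfl
  rw [e1]
  exact h1

lemma u11_exists_cc (S : Setting M N E ξ) : ∃ ι : H →L[ℂ] K,
    (∀ a ∈ M, ι (a ξ) = rep (fun _ => a) ζ) ∧ ‖ι‖ ≤ 1 ∧
    ∀ T ∈ MT, ccU M ξ rep ζ T = (adjoint ι).comp (T.comp ι) ∧ ccU M ξ rep ζ T ∈ M := by
  obtain ⟨ι, hι, hι1⟩ := O.u11_exists_iota S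
  refine ⟨ι, hι, hι1, fun T hT => ?_⟩
  have hmem : (adjoint ι).comp (T.comp ι) ∈ M := by
    obtain ⟨x, hx, -, rfl⟩ := O.surjM T hT
    exact U11.mem_of_weak (F := (UU : Filter ℕ)) M hx.1.1 (O.u11_weak_aux S hι hx)
  have hin : ∀ a ∈ M, ∀ b ∈ M, ⟪a ξ, ((adjoint ι).comp (T.comp ι)) (b ξ)⟫_ℂ =
      ⟪rep (fun _ => a) ζ, T (rep (fun _ => b) ζ)⟫_ℂ := by
    intro a ha b hb
    change ⟪a ξ, (adjoint ι) (T (ι (b ξ)))⟫_ℂ = _
    rw [adjoint_inner_right, hι a ha, hι b hb]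
  have h : ∃ y ∈ M, ∀ a ∈ M, ∀ b ∈ M,
    ⟪a ξ, y (b ξ)⟫_ℂ = ⟪rep (fun _ => a) ζ, T (rep (fun _ => b) ζ)⟫_ℂ := ⟨_, hmem, hin⟩
  have hc : ccU M ξ rep ζ T = h.choose := by rw [ccU, dif_pos h]
  obtain ⟨h1, h2⟩ := h.choose_spec
  rw [← hc] at h1 h2
  refine ⟨?_, h1⟩
  refine U11.op_ext_inner fun v w => ?_
  have hw : ∀ v ∈ (orb M ξ : Set H), ∀ w : H,
      ⟪v, ccU M ξ rep ζ T w⟫_ℂ = ⟪v, ((adjoint ι).comp (T.comp ι)) w⟫_ℂ := by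
    rintro _ ⟨a, ha, rfl⟩ w
    have hcl : IsClosed {w : H | ⟪a ξ, ccU M ξ rep ζ T w⟫_ℂ =
        ⟪a ξ, ((adjoint ι).comp (T.comp ι)) w⟫_ℂ} :=
      isClosed_eq (by fun_prop) (by fun_prop)
    refine closure_minimal ?_ hcl (S.cyc w)
    rintro _ ⟨b, hb, rfl⟩
    change ⟪a ξ, ccU M ξ rep ζ T (b ξ)⟫_ℂ = ⟪a ξ, ((adjoint ι).comp (T.comp ι)) (b ξ)⟫_ℂ
    rw [h2 a ha b hb, hin a ha b hb]
  have hcl : IsClosed {v : H | ⟪v, ccU M ξ rep ζ T w⟫_ℂ =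
      ⟪v, ((adjoint ι).comp (T.comp ι)) w⟫_ℂ} :=
    isClosed_eq (by fun_prop) (by fun_prop)
  exact closure_minimal (fun v hv => hw v hv w) hcl (S.cyc v)

/-- U11a -/
theorem cc_spec (S : Setting M N E ξ) {T : K →L[ℂ] K} (hT : T ∈ MT) :
    ccU M ξ rep ζ T ∈ M ∧ ∀ a ∈ M, ∀ b ∈ M,
      ⟪a ξ, ccU M ξ rep ζ T (b ξ)⟫_ℂ = ⟪rep (fun _ => a) ζ, T (rep (fun _ => b) ζ)⟫_ℂ := by
  obtain ⟨ι, hι, hι1, hc⟩ := O.u11_exists_cc S
  refine ⟨(hc T hT).2, fun a ha b hb => ?_⟩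
  rw [(hc T hT).1]
  change ⟪a ξ, (adjoint ι) (T (ι (b ξ)))⟫_ℂ = _
  rw [adjoint_inner_right, hι a ha, hι b hb]

theorem cc_norm (S : Setting M N E ξ) {T : K →L[ℂ] K} (hT : T ∈ MT) :
    ‖ccU M ξ rep ζ T‖ ≤ ‖T‖ := by
  obtain ⟨ι, hι, hι1, hc⟩ := O.u11_exists_cc S
  rw [(hc T hT).1]
  calc ‖(adjoint ι).comp (T.comp ι)‖ ≤ ‖adjoint ι‖ * (‖T‖ * ‖ι‖) :=
        (opNorm_comp_le _ _).trans (mul_le_mul_of_nonneg_left (opNorm_comp_le _ _)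
          (norm_nonneg _))
    _ ≤ 1 * (‖T‖ * 1) := by
        have : ‖adjoint ι‖ ≤ 1 := by rw [LinearIsometryEquiv.norm_map]; exact hι1
        gcongr
    _ = ‖T‖ := by ring

theorem cc_norm_xi (S : Setting M N E ξ) {T : K →L[ℂ] K} (hT : T ∈ MT) :
    ‖ccU M ξ rep ζ T ξ‖ ≤ ‖T ζ‖ := by
  obtain ⟨ι, hι, hι1, hc⟩ := O.u11_exists_cc S
  rw [(hc T hT).1]
  have h1 : ι ξ = ζ := by
    have h := hι 1 (one_mem M)
    rw [O.one] at h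
    exact h
  change ‖(adjoint ι) (T (ι ξ))‖ ≤ _
  rw [h1]
  calc ‖(adjoint ι) (T ζ)‖ ≤ ‖adjoint ι‖ * ‖T ζ‖ := le_opNorm _ _
    _ ≤ 1 * ‖T ζ‖ := by
        have : ‖adjoint ι‖ ≤ 1 := by rw [LinearIsometryEquiv.norm_map]; exact hι1
        gcongr
    _ = ‖T ζ‖ := one_mul _

/-- the compression of `rep x` is the weak limit of `x` -/
theorem cc_rep (S : Setting M N E ξ) {x : ℕ → H →L[ℂ] H} (hx : x ∈ AppS M ξ) (v w : H) :
    Tendsto (fun n => ⟪v, x n w⟫_ℂ) (UU : Filter ℕ) (𝓝 ⟪v, ccU M ξ rep ζ (rep x) w⟫_ℂ) := by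
  obtain ⟨ι, hι, hι1, hc⟩ := O.u11_exists_cc S
  rw [(hc (rep x) (O.memM x hx)).1]
  exact O.u11_weak_aux S hι hx v w

theorem cc_const (S : Setting M N E ξ) {x : H →L[ℂ] H} (hx : x ∈ M) :
    ccU M ξ rep ζ (rep fun _ => x) = x :=
  U11.op_ext_inner fun v w => tendsto_nhds_unique (O.cc_rep S (U11.const_mem_AppS S hx) v w)
    tendsto_const_nhds

theorem cc_add (S : Setting M N E ξ) {T T' : K →L[ℂ] K} (hT : T ∈ MT) (hT' : T' ∈ MT) :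
    ccU M ξ rep ζ (T + T') = ccU M ξ rep ζ T + ccU M ξ rep ζ T' := by
  obtain ⟨ι, hι, hι1, hc⟩ := O.u11_exists_cc S
  rw [(hc T hT).1, (hc T' hT').1, (hc (T + T') (add_mem hT hT')).1]
  ext w
  change (adjoint ι) (T (ι w) + T' (ι w)) = (adjoint ι) (T (ι w)) + (adjoint ι) (T' (ι w))
  rw [map_add]

theorem cc_sub (S : Setting M N E ξ) {T T' : K →L[ℂ] K} (hT : T ∈ MT) (hT' : T' ∈ MT) :
    ccU M ξ rep ζ (T - T') = ccU M ξ rep ζ T - ccU M ξ rep ζ T' := by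
  obtain ⟨ι, hι, hι1, hc⟩ := O.u11_exists_cc S
  rw [(hc T hT).1, (hc T' hT').1, (hc (T - T') (sub_mem hT hT')).1]
  ext w
  change (adjoint ι) (T (ι w) - T' (ι w)) = (adjoint ι) (T (ι w)) - (adjoint ι) (T' (ι w))
  rw [map_sub]

theorem cc_mul_left (S : Setting M N E ξ) {a : H →L[ℂ] H} (ha : a ∈ M) {T : K →L[ℂ] K}
    (hT : T ∈ MT) : ccU M ξ rep ζ (rep (fun _ => a) * T) = a * ccU M ξ rep ζ T := by
  obtain ⟨x, hx, -, rfl⟩ := O.surjM T hT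
  have hm := U11.AppS_mul (U11.const_mem_AppS S ha) hx
  rw [← O.mul _ (U11.const_mem_AppS S ha) x hx]
  refine U11.op_ext_inner fun v w => ?_
  have h1 := O.cc_rep S hm v w
  have h2 := O.cc_rep S hx ((Star.star a) v) w
  have e : ∀ n, ⟪(Star.star a) v, x n w⟫_ℂ = ⟪v, (a * x n) w⟫_ℂ := fun n => by
    rw [inner_star_left]; rfl
  simp only [e] at h2
  rw [tendsto_nhds_unique h1 h2, inner_star_left]
  rfl

theorem cc_mul_right (S : Setting M N E ξ) {a : H →L[ℂ] H} (ha : a ∈ M) {T : K →L[ℂ] K}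
    (hT : T ∈ MT) : ccU M ξ rep ζ (T * rep (fun _ => a)) = ccU M ξ rep ζ T * a := by
  obtain ⟨x, hx, -, rfl⟩ := O.surjM T hT
  have hm := U11.AppS_mul hx (U11.const_mem_AppS S ha)
  rw [← O.mul x hx _ (U11.const_mem_AppS S ha)]
  refine U11.op_ext_inner fun v w => ?_
  have h1 := O.cc_rep S hm v w
  have h2 := O.cc_rep S hx v (a w)
  exact tendsto_nhds_unique h1 h2

/-- relations between elements of the ultrapower hold approximately for the compressions -/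
lemma cc_rel_approx (S : Setting M N E ξ) {l : ℝ} (hl : 0 < l) {z z' : K →L[ℂ] K}
    (hz : z ∈ MT) (hz' : z' ∈ MT) (h : ∀ A ∈ eig NT ζ l, A * z = z' * A) (C : ℝ) {ε : ℝ}
    (hε : 0 < ε) :
    ∃ δ : ℝ, 0 < δ ∧ ∀ a ∈ N, ‖a‖ ≤ C → Defect N ξ l δ a →
      ‖(a * ccU M ξ rep ζ z - ccU M ξ rep ζ z' * a) ξ‖ ≤ ε := by
  obtain ⟨x, hx, -, rfl⟩ := O.surjM z hz
  obtain ⟨y, hy, -, rfl⟩ := O.surjM z' hz'
  obtain ⟨δ, hδ, hev⟩ := O.rel_approx S hl hx hy h C hε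
  refine ⟨δ, hδ, fun a ha haC hD => ?_⟩
  refine U11.norm_le_of_weak (F := (UU : Filter ℕ)) (x := fun n => (a * x n - y n * a) ξ)
    (fun v => ?_) (hev.mono fun n hn => hn a ha haC hD)
  have h1 := O.cc_rep S hx ((Star.star a) v) ξ
  have h2 := O.cc_rep S hy v (a ξ)
  have h3 := h1.sub h2
  have e : ∀ n, ⟪(Star.star a) v, x n ξ⟫_ℂ - ⟪v, y n (a ξ)⟫_ℂ = ⟪v, (a * x n - y n * a) ξ⟫_ℂ := by
    intro n
    rw [inner_star_left, sub_apply, inner_sub_right]; rfl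
  have e' : ⟪(Star.star a) v, ccU M ξ rep ζ (rep x) ξ⟫_ℂ - ⟪v, ccU M ξ rep ζ (rep y) (a ξ)⟫_ℂ =
      ⟪v, (a * ccU M ξ rep ζ (rep x) - ccU M ξ rep ζ (rep y) * a) ξ⟫_ℂ := by
    rw [inner_star_left, sub_apply, inner_sub_right]; rfl
  simp only [e, e'] at h3
  exact h3

/-- U11b -/
theorem cc_bicent (S : Setting M N E ξ) {z : K →L[ℂ] K} (hz : z ∈ Qalg MT NT ζ) :
    ccU M ξ rep ζ z ∈ Bicent M N ξ := by
  obtain ⟨hzM, hzc⟩ := mem_Qalg.1 hz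
  have hmem := (O.cc_spec S hzM).1
  refine ⟨hmem, fun a ha η => ?_⟩
  obtain ⟨haN, ⟨C, hC⟩, hD⟩ := ha
  have h2 : Tendsto (fun n => (ccU M ξ rep ζ z * a n - a n * ccU M ξ rep ζ z) ξ) atTop
      (𝓝 0) := by
    rw [tendsto_zero_iff_norm_tendsto_zero, Metric.tendsto_atTop]
    intro ε hε
    obtain ⟨δ, hδ, h1⟩ := O.cc_rel_approx S one_pos hzM hzM hzc C (half_pos hε)
    obtain ⟨n0, hn0⟩ := eventually_atTop.1 (hD δ hδ)
    refine ⟨n0, fun n hn => ?_⟩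
    rw [dist_zero_right, norm_norm]
    have h3 := h1 (a n) (haN n) (hC n) (hn0 n hn)
    have h4 : (ccU M ξ rep ζ z * a n - a n * ccU M ξ rep ζ z) ξ =
        -((a n * ccU M ξ rep ζ z - ccU M ξ rep ζ z * a n) ξ) := by
      rw [← neg_apply, neg_sub]
    rw [h4, norm_neg]
    linarith
  exact tendsto_of_bounded M S.dense_comm
    (x := fun n => ccU M ξ rep ζ z * a n - a n * ccU M ξ rep ζ z)
    (C := ‖ccU M ξ rep ζ z‖ * C + C * ‖ccU M ξ rep ζ z‖)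
    (fun n => sub_mem (mul_mem hmem (S.le _ (haN n))) (mul_mem (S.le _ (haN n)) hmem))
    (fun n => (norm_sub_le _ _).trans (add_le_add
      ((norm_mul_le _ _).trans (mul_le_mul_of_nonneg_left (hC n) (norm_nonneg _)))
      ((norm_mul_le _ _).trans (mul_le_mul_of_nonneg_right (hC n) (norm_nonneg _))))) h2 η

/-- a sequence of `AppS` with `x n ξ → 0` along the ultrafilter represents `0` -/
lemma u11_rep_eq_zero {x : ℕ → H →L[ℂ] H} (hx : x ∈ AppS M ξ)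
    (h : ∀ ε : ℝ, 0 < ε → ∀ᶠ n in (UU : Filter ℕ), ‖x n ξ‖ ≤ ε) : rep x = 0 := by
  refine O.set.sep _ (O.memM x hx) ?_
  have h1 := O.inner x hx x hx
  have h2 : Tendsto (fun n => ⟪x n ξ, x n ξ⟫_ℂ) (UU : Filter ℕ) (𝓝 0) := by
    rw [tendsto_zero_iff_norm_tendsto_zero, Metric.tendsto_nhds]
    intro ε hε
    have h3 := h (Real.sqrt (ε / 2)) (Real.sqrt_pos.2 (half_pos hε))
    filter_upwards [h3] with n hn
    rw [dist_zero_right, norm_norm]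
    calc ‖⟪x n ξ, x n ξ⟫_ℂ‖ ≤ ‖x n ξ‖ * ‖x n ξ‖ := norm_inner_le_norm _ _
      _ ≤ Real.sqrt (ε / 2) * Real.sqrt (ε / 2) := by gcongr
      _ = ε / 2 := Real.mul_self_sqrt (by positivity)
      _ < ε := by linarith
  have h3 := tendsto_nhds_unique h1 h2
  exact inner_self_eq_zero.1 h3

/-- U11c -/
theorem al_cc (S : Setting M N E ξ) (hAP : AP MT NT ET ζ) {l : ℝ} (hl : 0 < l)
    (hG : l ∈ Gam NT ζ) {z : K →L[ℂ] K} (hz : z ∈ Qalg MT NT ζ) :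
    rep (fun _ => ccU M ξ rep ζ (al MT NT ζ l z)) =
      al MT NT ζ l (rep fun _ => ccU M ξ rep ζ z) := by
  have hz' : al MT NT ζ l z ∈ Qalg MT NT ζ := hAP.al_mem hG hz
  have hrel : Rel NT ζ l z (al MT NT ζ l z) := hAP.al_rel hG hz
  have hzM := (mem_Qalg.1 hz).1
  have hzM' := (mem_Qalg.1 hz').1
  have hy := (O.cc_spec S hzM).1
  have hy' := (O.cc_spec S hzM').1
  refine (hAP.al_unique hG (O.const_mem_Qalg S (O.cc_bicent S hz)) ?_).symm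
  intro A hA
  obtain ⟨a, ha, haA, rfl⟩ := O.exists_lamU S hl hA
  have haS := S.lamU_appS hl ha
  have h1 := U11.AppS_mul haS (U11.const_mem_AppS S hy)
  have h2 := U11.AppS_mul (U11.const_mem_AppS S hy') haS
  have h0 : rep (fun n => a n * ccU M ξ rep ζ z - ccU M ξ rep ζ (al MT NT ζ l z) * a n) = 0 := by
    refine O.u11_rep_eq_zero (U11.AppS_sub h1 h2) fun ε hε => ?_
    obtain ⟨δ, hδ, h3⟩ := O.cc_rel_approx S hl hzM hzM' hrel (2 * ‖rep a‖) hε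
    filter_upwards [ha.2.2 δ hδ] with n hn
    exact h3 (a n) (ha.1 n) (haA n) hn
  rw [O.u11_rep_sub h1 h2, O.mul a haS _ (U11.const_mem_AppS S hy),
    O.mul _ (U11.const_mem_AppS S hy') a haS, sub_eq_zero] at h0
  exact h0

end Oc

end Pool.Agent.Helper23
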